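import Pool.Agent.X197.ChaosMix3

set_option autoImplicit false

namespace Pool.Agent.Results.MP_07ea7a_an.ChaoticImpliesMixing

open Set Pool.Agent.X197.ChaosMix
open scoped ContDiff

/-- A chaotic weighted composition operator on the smooth functions on an open set is mixing. -/
theorem result {𝕂 : Type*} [RCLike 𝕂] (d : ℕ) (Ω : Set (Eu d)) (hΩ : IsOpen Ω) (w : Eu d → 𝕂)
    (hw : Smooth Ω w) (ψ : Eu d → Eu d) (hψ : ContDiffOn ℝ ∞ ψ Ω) (hmaps : MapsTo ψ Ω Ω)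
    (hchaotic : IsChaotic Ω (wcomp w ψ)) : IsMixing Ω (wcomp w ψ) :=
  chaotic_mixing ⟨hΩ, hw, hψ, hmaps⟩ hchaotic

end Pool.Agent.Results.MP_07ea7a_an.ChaoticImpliesMixing
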